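import Pool.Agent.H15.G.R_seed8.TH105.N13.Num
import Pool.Agent.H15.G.R_seed8.TH641.UM.Inner
import Pool.Agent.H15.G.R_seed8.TH641.UM.Outer

/-! The expected dimension at `n` general points of one multiplicity in all degrees, all large `n`,
from the matching lemma. -/

set_option autoImplicit false

namespace Pool.Agent.TH105.N13

open Finset Pool.Agent.TH176.Nag Pool.Agent.TH603.Sur Pool.Agent.TH603.Cut Pool.Agent.H932R3
  Pool.Agent.TH641.UM

theorem crit (hM : MatchHyp) : ∃ N1 : ℕ, ∀ n : ℕ, N1 ≤ n → ∀ m : ℕ,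
    (n : ℝ) - 6 * √(n : ℝ) + 10 ≤ m → Crit (1 / 26) n m := by
  obtain ⟨N1, hN1⟩ := F12
  refine ⟨N1, fun n hn m hm d hd => ?_⟩
  obtain ⟨k, k', r, hk, hk', hr, h⟩ := hN1 n hn
  obtain ⟨h1, h2⟩ := h m hm
  obtain ⟨F1, F2⟩ := h2 d hd
  exact crit_of_F hM (by omega) hk' h1 hr F1 F2

/-- **the expected dimension in all degrees** -/
theorem expDim_all (hM : MatchHyp) :
    ∃ N0 : ℕ, ∀ n : ℕ, N0 ≤ n → ∀ m : ℕ, 1 ≤ m → ∀ {L : Type} [Field L] [CharZero L],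
      ∃ F : MvPolynomial (Fin n × Fin 2) ℚ, F ≠ 0 ∧ ∀ (P : Fin n → Fin 2 → L),
        MvPolynomial.aeval (fun ij : Fin n × Fin 2 => P ij.1 ij.2) F ≠ 0 →
        ∀ d : ℕ, ExpDim L (fun _ => m) P d :=
  expDim_of_crit (ε := 1 / 26) (by norm_num) (crit hM)

end Pool.Agent.TH105.N13
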