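import Pool.Agent.H15.G.R_seed8.TH105.N13.RF
import Pool.Agent.H15.G.R_seed8.TH603.Cut.FlatE
import Pool.Agent.H15.G.R_seed8.TH603.Sur.Rows
import Pool.Agent.H15.G.R_seed8.TH603.EL.Key
import Pool.Agent.H15.G.R_seed8.TH387.SH.Tr
import Pool.Agent.H15.G.R_seed8.TH102.DP.Absorb

/-! From the plane to the rows: one big point is absorbed at the left corner of the triangle of real
slopes, the rest is flattened along `(-v, k)`. -/

set_option autoImplicit false

namespace Pool.Agent.TH105.N13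

open Finset Pool.Agent.TH176.Nag Pool.Agent.TH603.Sur Pool.Agent.TH603.Cut

theorem RR_finite (β lam : ℝ) (L : ℤ → ℤ) (H : ℕ) : (RR β lam L H).Finite := by
  have hsub : RR β lam L H ⊆ ↑((Finset.Icc (0 : ℤ) H).biUnion fun y =>
      (Finset.Ioc (⌊β + lam * y⌋ - L y) ⌊β + lam * y⌋).image fun x => ((x, y) : ℤ × ℤ)) := by
    rintro ⟨x, y⟩ ⟨h1, h2, h3, h4⟩
    simp only at h1 h2 h3 h4
    rw [mem_coe, mem_biUnion]
    refine ⟨y, Finset.mem_Icc.2 ⟨h1, h2⟩, ?_⟩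
    rw [mem_image]
    exact ⟨x, Finset.mem_Ioc.2 ⟨h3, h4⟩, rfl⟩
  exact (Finset.finite_toSet _).subset hsub

theorem L1_zero {d E : ℕ} {y : ℤ} (hy : 0 ≤ y) : L1 d E y = L1 d 0 y - max ((E : ℤ) - y) 0 := by
  unfold L1
  rw [max_eq_right (show ((0 : ℕ) : ℤ) - y ≤ 0 by push_cast; omega)]
  ring

theorem L1a_zero {d E : ℕ} {y : ℤ} (hy : 0 ≤ y) : L1a d E y = L1a d 0 y - max ((E : ℤ) - y) 0 := by
  unfold L1a
  rw [L1_zero (E := E) hy]
  ring

/-- absorbing one point at the left corner: emptiness -/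
theorem Emp_abs {ι : Type} {w : ι → ℕ} {β lam : ℝ} {d E : ℕ}
    (h : Emp w (RR β lam (L1a d E) (d / 3))) :
    Emp (fun o : Option ι => o.elim E w) (RR β lam (L1a d 0) (d / 3)) := by
  refine Pool.Agent.TH102.DP.Emp_absorb E (RR_finite _ _ _ _) (fun m hm => hm.1)
    (fun y => ⌊β + lam * y⌋ - L1a d 0 y + 1) (fun m hm => ?_) (fun m hm hE => ?_) h
  · have := hm.2.2.1
    omega
  · obtain ⟨h1, h2, h3, h4⟩ := hm
    refine ⟨h1, h2, ?_, h4⟩
    rw [L1a_zero (E := E) h1]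
    rcases le_total ((E : ℤ) - m.2) 0 with h5 | h5
    · rw [max_eq_right h5]; omega
    · rw [max_eq_left h5]; omega

/-- absorbing one point at the left corner: independence -/
theorem Sur_abs {ι : Type} [Fintype ι] {w : ι → ℕ} {β lam : ℝ} {d E : ℕ} (hE : 3 * E ≤ d)
    (h : Sur w (RR β lam (L1 d E) (d / 3))) :
    Sur (fun o : Option ι => o.elim E w) (RR β lam (L1 d 0) (d / 3)) := by
  classical
  obtain ⟨T, hT1, hT2, hT3⟩ := h
  let C0 : Finset (ℤ × ℤ) := (range E).biUnion fun y =>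
    (Finset.Ioc (⌊β + lam * ((y : ℤ) : ℝ)⌋ - L1 d 0 y)
      (⌊β + lam * ((y : ℤ) : ℝ)⌋ - L1 d 0 y + ((E - y : ℕ) : ℤ))).image fun x => ((x, (y : ℤ)) : ℤ × ℤ)
  have hC0 : ∀ p : ℤ × ℤ, p ∈ C0 → 0 ≤ p.2 ∧ p.2 < E ∧ ⌊β + lam * p.2⌋ - L1 d 0 p.2 < p.1 ∧
      p.1 ≤ ⌊β + lam * p.2⌋ - L1 d 0 p.2 + (E - p.2) := by
    intro p hp
    simp only [C0, mem_biUnion, mem_image, mem_range, Finset.mem_Ioc] at hp
    obtain ⟨y, hy, x, ⟨hx1, hx2⟩, rfl⟩ := hp
    rw [Nat.cast_sub hy.le] at hx2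
    exact ⟨by simp, by simpa using hy, hx1, hx2⟩
  have hcard : C0.card = (E + 1).choose 2 := by
    simp only [C0]
    rw [card_biUnion]
    · have h1 : ∀ y ∈ range E, ((Finset.Ioc (⌊β + lam * ((y : ℤ) : ℝ)⌋ - L1 d 0 y)
          (⌊β + lam * ((y : ℤ) : ℝ)⌋ - L1 d 0 y + ((E - y : ℕ) : ℤ))).image
          fun x => ((x, (y : ℤ)) : ℤ × ℤ)).card = E - y := by
        intro y _
        rw [card_image_of_injective _ (fun a b h => (Prod.mk.inj h).1), Int.card_Ioc]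
        omega
      rw [sum_congr rfl h1]
      exact sum_range_sub E E le_rfl
    · intro a _ b _ hne
      rw [Function.onFun, disjoint_left]
      intro p hp hp'
      rw [mem_image] at hp hp'
      obtain ⟨x, _, rfl⟩ := hp
      obtain ⟨x', _, h⟩ := hp'
      have := (Prod.mk.inj h).2
      exact hne (by exact_mod_cast this.symm)
  have hdisj : Disjoint T C0 := by
    rw [disjoint_left]
    intro p hp hp'
    have h1 := hC0 p hp'
    have h2 := (hT1 (mem_coe.2 hp)).2.2.1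
    rw [L1_zero (E := E) h1.1, max_eq_left (by omega)] at h2
    omega
  refine ⟨T ∪ C0, ?_, ?_, ?_⟩
  · intro p hp
    rw [mem_coe, mem_union] at hp
    rcases hp with hp | hp
    · obtain ⟨h1, h2, h3, h4⟩ := hT1 (mem_coe.2 hp)
      refine ⟨h1, h2, ?_, h4⟩
      rw [L1_zero (E := E) h1] at h3
      have := le_max_right ((E : ℤ) - p.2) 0
      omega
    · obtain ⟨h1, h2, h3, h4⟩ := hC0 p hp
      refine ⟨h1, by push_cast; omega, h3, ?_⟩
      have h5 : (E : ℤ) - p.2 ≤ L1 d 0 p.2 := by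
        unfold L1
        rw [max_eq_right (by push_cast; omega)]
        omega
      omega
  · rw [card_union_of_disjoint hdisj, hT2, hcard]
    unfold Pool.Agent.TH603.Sur.cond
    rw [Fintype.sum_option]
    simp only [Option.elim_none, Option.elim_some]
    ring
  · refine Pool.Agent.TH102.DP.Emp_absorb E (Finset.finite_toSet _) (fun m hm => ?_)
      (fun y => ⌊β + lam * y⌋ - L1 d 0 y + 1) (fun m hm => ?_) (fun m hm hEm => ?_) hT3
    · rw [mem_coe, mem_union] at hm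
      rcases hm with hm | hm
      · exact (hT1 (mem_coe.2 hm)).1
      · exact (hC0 m hm).1
    · rw [mem_coe, mem_union] at hm
      rcases hm with hm | hm
      · obtain ⟨h1, h2, h3, h4⟩ := hT1 (mem_coe.2 hm)
        rw [L1_zero (E := E) h1] at h3
        have := le_max_right ((E : ℤ) - m.2) 0
        omega
      · have := (hC0 m hm).2.2.1
        omega
    · rw [mem_coe, mem_union] at hm
      rw [mem_coe]
      rcases hm with hm | hm
      · exact hm
      · have h1 := (hC0 m hm).2.2.2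
        omega

/-- the plane: emptiness -/
theorem Emp_plane {ι : Type} {w : ι → ℕ} {d : ℕ} {τ : ℝ} {t : ℤ} (h0 : 0 < τ) (h1 : τ < 1)
    (hirr : Irrational τ) (h : Emp w (RR ((2 - τ) * d) (t - 3 * (2 - τ)) (L1a d 0) (d / 3))) :
    Emp w (TZ d) := by
  refine Pool.Agent.TH603.EL.Emp_key h0 h1 (h.comap 1 t 0 1 0 0 (by norm_num) ?_)
  rintro ⟨x, y⟩ ⟨g1, g2, g3⟩
  simp only at g1 g2 g3
  have hyR : (y : ℝ) * 3 ≤ d := by nlinarith
  have hy3 : y * 3 ≤ d := by exact_mod_cast hyR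
  have e : ((1 * x + t * y + 0, 0 * x + 1 * y + 0) : ℤ × ℤ) = (x + t * y, y) := by
    ext <;> simp
  simp only [e]
  have hb : (2 - τ) * d + (t - 3 * (2 - τ)) * (y : ℝ) = (2 - τ) * (d - 3 * y) + t * y := by ring
  refine ⟨g1, by simp only; push_cast; omega, ?_, ?_⟩
  · simp only
    rw [hb]
    rcases hy3.lt_or_eq with hlt | heq
    · have hne : (2 - τ) * (d - 3 * y) + t * y ≠ ((⌊(2 - τ) * (d - 3 * y) + t * y⌋ : ℤ) : ℝ) := by
        intro hcon
        have h5 : ((d : ℤ) - 3 * y : ℤ) ≠ 0 := by omega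
        have h6 : Irrational (τ * (((d : ℤ) - 3 * y : ℤ) : ℝ)) := hirr.mul_intCast h5
        apply h6
        refine ⟨((2 * ((d : ℤ) - 3 * y) + t * y - ⌊(2 - τ) * (d - 3 * y) + t * y⌋ : ℤ) : ℚ), ?_⟩
        push_cast
        rw [← hcon]
        ring
      have h5 : ((⌊(2 - τ) * (d - 3 * y) + t * y⌋ : ℤ) : ℝ) < (2 - τ) * (d - 3 * y) + t * y :=
        lt_of_le_of_ne (Int.floor_le _) (Ne.symm hne)
      have h6 : L1a d 0 y = 3 * ((d : ℤ) - 3 * y) := by
        unfold L1a L1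
        rw [max_eq_right (by push_cast; omega), if_neg (by omega)]
        ring
      rw [h6]
      have h7 : ((⌊(2 - τ) * (d - 3 * y) + t * y⌋ - 3 * ((d : ℤ) - 3 * y) : ℤ) : ℝ) < ((x + t * y : ℤ) : ℝ) := by
        push_cast
        nlinarith
      exact_mod_cast h7
    · have h6 : L1a d 0 y = 1 := by
        unfold L1a L1
        rw [max_eq_right (by push_cast; omega), if_pos (by omega)]
        omega
      rw [h6]
      have h8 : ((⌊(2 - τ) * (d - 3 * y) + t * y⌋ : ℤ) : ℝ) ≤ ((x + t * y : ℤ) : ℝ) := by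
        refine (Int.floor_le _).trans ?_
        push_cast
        have h9 : (y : ℝ) * 3 = d := by exact_mod_cast heq
        nlinarith
      have h10 : ⌊(2 - τ) * (d - 3 * y) + t * y⌋ ≤ x + t * y := by exact_mod_cast h8
      omega
  · simp only
    rw [Int.le_floor, hb]
    push_cast
    nlinarith

/-- the plane: independence -/
theorem Sur_plane {ι : Type} [Fintype ι] {w : ι → ℕ} {d : ℕ} {τ : ℝ} {t : ℤ} (h0 : 0 < τ) (h1 : τ < 1)
    (hirr : Irrational τ) (h : Sur w (RR ((2 - τ) * d) (t - 3 * (2 - τ)) (L1 d 0) (d / 3))) :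
    Sur w (TZ d) := by
  refine Pool.Agent.TH387.SH.Sur_key h0 h1 hirr (h.comap 1 t 0 1 0 0 (by norm_num) ?_)
  rintro ⟨X, y⟩ ⟨g1, g2, g3, g4⟩
  simp only at g1 g2 g3 g4
  refine ⟨(X - t * y, y), ?_, by ext <;> simp⟩
  have hb : (2 - τ) * d + (t - 3 * (2 - τ)) * (y : ℝ) = (2 - τ) * (d - 3 * y) + t * y := by ring
  rw [hb] at g3 g4
  have h6 : L1 d 0 y = 3 * ((d : ℤ) - 3 * y) := by
    unfold L1
    rw [max_eq_right (by push_cast; omega)]
    ring
  rw [h6] at g3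
  have h7 := Int.le_floor.1 g4
  have h8 := Int.lt_floor_add_one ((2 - τ) * (d - 3 * y) + t * y)
  have h9 : ⌊(2 - τ) * (d - 3 * y) + t * y⌋ + 1 ≤ X + 3 * ((d : ℤ) - 3 * y) := by omega
  have h10 : ((⌊(2 - τ) * (d - 3 * y) + t * y⌋ + 1 : ℤ) : ℝ) ≤ ((X + 3 * ((d : ℤ) - 3 * y) : ℤ) : ℝ) := by
    exact_mod_cast h9
  push_cast at h10
  refine ⟨g1, ?_, ?_⟩
  · simp only
    push_cast
    nlinarith
  · simp only
    push_cast
    nlinarith

/-- flattening along `(-v, k)`, any multiplicities: emptiness -/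
theorem Emp_RF {ι : Type} {ω : ι → ℕ} {d E k : ℕ} {v u w : ℤ} {β lam σ : ℝ} (hk : 0 < k)
    (hdet : (k : ℤ) * u + v * w = 1) (hσ : 1 ≤ σ) (hlam : lam * k = σ - v) (hE : 3 * E ≤ d)
    {n' Z' : ℝ} {s : ℕ} (hs : (s : ℝ) + 1 ≤ n') {J : ℕ}
    (h1 : ∀ j < J, (Pc β lam (L1 d E) (d / 3) k v j : ℝ) - Pc β lam (L1 d E) (d / 3) k v (j + 1) + 1 ≤
      Z' - (n' - s) - n' * j)
    (h2 : (Pc β lam (L1 d E) (d / 3) k v J : ℝ) + 1 + s * J ≤ Z')
    (h3 : Pc β lam (L1 d E) (d / 3) k v (J + 1) = 0) (h : Emp ω (Cl Z' n')) :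
    Emp ω (RR β lam (L1a d E) (d / 3)) := by
  classical
  have hL : ∀ a b : ℤ, 0 ≤ a → a ≤ b → b ≤ (d / 3 : ℕ) → L1a d E b ≤ L1a d E a :=
    fun a b _ hab hb => L1a_anti hab (by omega)
  have hP0 : ∀ j, J < j → Pc β lam (L1 d E) (d / 3) k v j = 0 := by
    intro j hj
    induction j, hj using Nat.le_induction with
    | base => exact h3
    | succ j _ ih =>
      have := Pc_anti (β := β) (lam := lam) (σ := σ) (L := L1 d E) (H := d / 3) (k := k) (v := v)
        (by linarith) hlam (fun a b _ hab _ => L1_anti hab) j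
      omega
  refine Emp_flat (S' := {q : ℤ × ℤ | 0 ≤ q.2 ∧ ∃ p ∈ RR β lam (L1a d E) (d / 3),
    (k : ℤ) * p.1 + v * p.2 = q.1 ∧
      ((p.1 - v * q.2, p.2 + k * q.2) : ℤ × ℤ) ∈ RR β lam (L1a d E) (d / 3)}) k v u w hdet ?_ ?_
  · intro p T n hp hT hn
    refine ⟨by simp, p, hp, rfl, ?_⟩
    have h5 := mem_between (p := ((p.1 - v * T, p.2 + k * T) : ℤ × ℤ)) (by linarith : (0 : ℝ) ≤ σ)
      hlam hL hT (t := T) (t' := T - n) (by omega) (by omega) (by
        have e : (((p.1 - v * T, p.2 + k * T) : ℤ × ℤ).1 + v * T,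
          ((p.1 - v * T, p.2 + k * T) : ℤ × ℤ).2 - k * T) = p := by
          ext <;> simp
        rw [e]
        exact hp)
    have e : (((p.1 - v * T, p.2 + k * T) : ℤ × ℤ).1 + v * (T - n),
        ((p.1 - v * T, p.2 + k * T) : ℤ × ℤ).2 - k * (T - n)) =
        (p.1 - v * (n : ℤ), p.2 + k * (n : ℤ)) := by
      ext <;> simp only <;> ring
    rw [e] at h5
    exact h5
  · refine Emp_spread hs (J := J)
      (ρ := fun j => (Pc β lam (L1 d E) (d / 3) k v j : ℝ) - Pc β lam (L1 d E) (d / 3) k v (j + 1) +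
        if j = 0 ∧ 3 ∣ d then 1 else 0) (fun p hp => hp.1) ?_ ?_ ?_ ?_ h
    · intro j B hB
      have h5 := upA (β := β) (lam := lam) (σ := σ) hE hk hdet hσ hlam j B (by
        intro c hc
        obtain ⟨-, p, hp, hpc, hpj⟩ := hB c hc
        simp only at hpc hpj
        refine ⟨Finset.Icc (u * p.2 - w * p.1) (u * p.2 - w * p.1 + j), ?_, fun s hs => ?_⟩
        · rw [Int.card_Icc]
          omega
        · rw [Finset.mem_Icc] at hs
          have h6 := mem_between (p := ((p.1 - v * (j : ℤ), p.2 + k * (j : ℤ)) : ℤ × ℤ))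
            (by linarith : (0 : ℝ) ≤ σ) hlam hL hpj (t := j)
            (t' := j - (s - (u * p.2 - w * p.1))) (by omega) (by omega) (by
              have e : (((p.1 - v * (j : ℤ), p.2 + k * (j : ℤ)) : ℤ × ℤ).1 + v * (j : ℤ),
                ((p.1 - v * (j : ℤ), p.2 + k * (j : ℤ)) : ℤ × ℤ).2 - k * (j : ℤ)) = p := by
                ext <;> simp
              rw [e]
              exact hp)
          have e : (((p.1 - v * (j : ℤ), p.2 + k * (j : ℤ)) : ℤ × ℤ).1 + v * (j - (s - (u * p.2 - w * p.1))),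
              ((p.1 - v * (j : ℤ), p.2 + k * (j : ℤ)) : ℤ × ℤ).2 - k * (j - (s - (u * p.2 - w * p.1)))) =
              (u * c - v * s, w * c + k * s) := by
            rw [← hpc]
            ext
            · simp only; linear_combination (-p.1) * hdet
            · simp only; linear_combination (-p.2) * hdet
          rw [e] at h6
          exact h6)
      have h6 : ((B.card : ℤ) : ℝ) ≤ ((((Pc β lam (L1 d E) (d / 3) k v j : ℤ) -
        Pc β lam (L1 d E) (d / 3) k v (j + 1) + if j = 0 ∧ 3 ∣ d then 1 else 0) : ℤ) : ℝ) := by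
        exact_mod_cast h5
      push_cast at h6
      exact h6
    · intro j hj
      refine le_trans ?_ (h1 j hj)
      split_ifs <;> linarith
    · refine le_trans ?_ h2
      have := hP0 (J + 1) (by omega)
      rw [this]
      push_cast
      split_ifs <;> linarith
    · intro j hj
      rw [hP0 j hj, hP0 (j + 1) (by omega), if_neg (by omega)]
      norm_num

/-- flattening along `(-v, k)`, any multiplicities: independence -/
theorem Sur_RF {ι : Type} [Fintype ι] {ω : ι → ℕ} {d E k : ℕ} {v u w : ℤ} {β lam σ : ℝ}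
    (hdet : (k : ℤ) * u + v * w = 1) (hσ : 0 ≤ σ) (hlam : lam * k = σ - v)
    (h : ∀ j : ℕ, ((∑ i, (ω i - j) : ℕ) : ℤ) ≤
      (Pc β lam (L1 d E) (d / 3) k v j : ℤ) - Pc β lam (L1 d E) (d / 3) k v (j + 1)) :
    Sur ω (RR β lam (L1 d E) (d / 3)) := by
  refine Sur_slabs (S' := {p : ℤ × ℤ | 0 ≤ p.1 ∧ 0 ≤ p.2 ∧ p.1 < ((∑ i, (ω i - p.2.toNat) : ℕ) : ℤ)})
    k v u w hdet ?_ (Sur_rows ω 0 ?_)
  · rintro ⟨a, b⟩ ⟨g1, g2, g3⟩
    simp only at g1 g2 g3
    obtain ⟨j, rfl⟩ := Int.eq_ofNat_of_zero_le g2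
    rw [Int.toNat_natCast] at g3
    obtain ⟨B, hB1, hB2⟩ := lowA (β := β) (lam := lam) (σ := σ) (d := d) (E := E) hdet hσ hlam j
    refine ⟨g1, g2, B, ?_, hB2⟩
    have := h j
    simp only
    linarith
  · intro j i hi
    refine ⟨by simp, by simp, ?_⟩
    simp only [Int.toNat_natCast]
    have : (i : ℤ) < ((∑ i, (ω i - j) : ℕ) : ℤ) := by exact_mod_cast hi
    linarith

theorem Emp_Cl_uni (r m : ℕ) : Emp (fun _ : Fin r => m) (Cl ((r : ℝ) * m) r) := by
  refine (Emp_rows (fun _ : Fin r => m) 0).mono ?_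
  rintro ⟨x, y⟩ ⟨g1, g2, g3⟩
  simp only at g1 g2 g3
  obtain ⟨y, rfl⟩ := Int.eq_ofNat_of_zero_le g2
  refine ⟨g2, g1, ?_⟩
  simp only [Int.toNat_natCast, sum_const, card_univ, Fintype.card_fin, smul_eq_mul, zero_add]
  have h1 : ((x + 1 + r * y : ℤ) : ℝ) ≤ ((r * m : ℤ) : ℝ) := by
    push_cast
    simpa using g3
  have h2 : x + 1 + r * y ≤ r * m := by exact_mod_cast h1
  have h3 : y ≤ m := by
    by_contra hcon
    push Not at hcon
    have : (r : ℤ) * m ≤ r * y := mul_le_mul_of_nonneg_left (by exact_mod_cast hcon.le) (Int.natCast_nonneg r)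
    omega
  push_cast [Nat.cast_sub h3]
  linarith

/-- **the F side, independence** -/
theorem geo_S {d E k m r : ℕ} {v u w : ℤ} {τ σ : ℝ} {t : ℤ} (hdet : (k : ℤ) * u + v * w = 1)
    (h0 : 0 < τ) (h1 : τ < 1) (hirr : Irrational τ) (hσ : 0 ≤ σ)
    (hlam : (t - 3 * (2 - τ)) * k = σ - v) (hE : 3 * E ≤ d)
    (hrow : ∀ j < m, (r : ℤ) * ((m : ℤ) - j) ≤
      (Pc ((2 - τ) * d) (t - 3 * (2 - τ)) (L1 d E) (d / 3) k v j : ℤ) -
        Pc ((2 - τ) * d) (t - 3 * (2 - τ)) (L1 d E) (d / 3) k v (j + 1)) :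
    Sur (fun o : Option (Fin r) => o.elim E (fun _ => m)) (TZ d) := by
  refine Sur_plane h0 h1 hirr (Sur_abs hE (Sur_RF hdet hσ hlam fun j => ?_))
  rw [sum_const, card_univ, Fintype.card_fin, smul_eq_mul]
  rcases Nat.lt_or_ge j m with hj | hj
  · have := hrow j hj
    push_cast [Nat.cast_sub hj.le]
    exact this
  · rw [Nat.sub_eq_zero_of_le hj, Nat.mul_zero]
    have := Pc_anti (β := (2 - τ) * d) hσ hlam (L := L1 d E) (H := d / 3)
      (fun a b _ hab _ => L1_anti hab) j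
    push_cast
    have h5 : (Pc ((2 - τ) * d) (t - 3 * (2 - τ)) (L1 d E) (d / 3) k v (j + 1) : ℤ) ≤
      Pc ((2 - τ) * d) (t - 3 * (2 - τ)) (L1 d E) (d / 3) k v j := by exact_mod_cast this
    linarith

/-- **the F side, emptiness** -/
theorem geo_E {d E k m r : ℕ} {v u w : ℤ} {τ σ : ℝ} {t : ℤ} (hk : 0 < k)
    (hdet : (k : ℤ) * u + v * w = 1) (h0 : 0 < τ) (h1 : τ < 1) (hirr : Irrational τ) (hσ : 1 ≤ σ)
    (hlam : (t - 3 * (2 - τ)) * k = σ - v) (hE : 3 * E ≤ d) {s : ℕ} (hs : 1 ≤ s) (hsr : s ≤ r)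
    (hrow : ∀ j < m, (Pc ((2 - τ) * d) (t - 3 * (2 - τ)) (L1 d E) (d / 3) k v j : ℝ) -
        Pc ((2 - τ) * d) (t - 3 * (2 - τ)) (L1 d E) (d / 3) k v (j + 1) + 1 + s ≤ r * ((m : ℝ) - j))
    (htip : (Pc ((2 - τ) * d) (t - 3 * (2 - τ)) (L1 d E) (d / 3) k v m : ℝ) + 1 ≤ s * m)
    (hz : Pc ((2 - τ) * d) (t - 3 * (2 - τ)) (L1 d E) (d / 3) k v (m + 1) = 0) :
    Emp (fun o : Option (Fin r) => o.elim E (fun _ => m)) (TZ d) := by
  refine Emp_plane h0 h1 hirr (Emp_abs (Emp_RF hk hdet hσ hlam hE (n' := r) (Z' := (r : ℝ) * m)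
    (s := r - s) ?_ (J := m) ?_ ?_ hz (Emp_Cl_uni r m)))
  · have h5 : ((r - s : ℕ) : ℝ) + 1 ≤ ((r : ℕ) : ℝ) := by
      exact_mod_cast (by omega : r - s + 1 ≤ r)
    exact h5
  · intro j hj
    have := hrow j hj
    rw [Nat.cast_sub hsr]
    linarith
  · rw [Nat.cast_sub hsr]
    linarith

end Pool.Agent.TH105.N13
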