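import Mathlib

/-! Counting the lattice points on the parallel lines `k x + v y = c` in a region whose rows have
right end `⌊β + lam y⌋` and decreasing lengths `L y`: the number of lines with more than `j` points
is `Pc j - Pc (j + 1)`, where `Pc j` counts the pairs of points at distance `j`. -/

set_option autoImplicit false

namespace Pool.Agent.TH105.N13

open Finset

/-- the region: rows `0 ≤ y ≤ H`, integers `⌊β + lam y⌋ - L y < x ≤ ⌊β + lam y⌋` -/
def RR (β lam : ℝ) (L : ℤ → ℤ) (H : ℕ) : Set (ℤ × ℤ) :=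
  {p | 0 ≤ p.2 ∧ p.2 ≤ H ∧ ⌊β + lam * p.2⌋ - L p.2 < p.1 ∧ p.1 ≤ ⌊β + lam * p.2⌋}

/-- the number of pairs of points of the region at distance `j` in the direction `(-v, k)` -/
noncomputable def Pc (β lam : ℝ) (L : ℤ → ℤ) (H k : ℕ) (v : ℤ) (j : ℕ) : ℕ :=
  ∑ y ∈ Finset.Icc (k * j) H,
    (L y - (⌊β + lam * (y : ℝ)⌋ - ⌊β + lam * ((y : ℝ) - (k : ℝ) * j)⌋) - v * j).toNat

section
variable {β lam σ : ℝ} {L : ℤ → ℤ} {H k : ℕ} {v : ℤ}

theorem floor_shift (hlam : lam * k = σ - v) (y t : ℤ) :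
    ⌊β + lam * ((y - k * t : ℤ) : ℝ)⌋ = ⌊β + lam * y - σ * t⌋ + v * t := by
  have e : β + lam * ((y - k * t : ℤ) : ℝ) = β + lam * y - σ * t + ((v * t : ℤ) : ℝ) := by
    push_cast
    linear_combination (-(t : ℝ)) * hlam
  rw [e, Int.floor_add_intCast]

/-- shifting a point of the region downwards -/
theorem mem_down (hσ : 0 ≤ σ) (hlam : lam * k = σ - v)
    (hL : ∀ a b : ℤ, 0 ≤ a → a ≤ b → b ≤ H → L b ≤ L a) {p : ℤ × ℤ} (hp : p ∈ RR β lam L H) {t : ℤ}
    (ht : 0 ≤ t) : ((p.1 + v * t, p.2 - k * t) : ℤ × ℤ) ∈ RR β lam L H ↔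
      k * t ≤ p.2 ∧ (p.1 : ℝ) ≤ β + lam * p.2 - σ * t := by
  obtain ⟨h1, h2, h3, h4⟩ := hp
  have hkt : 0 ≤ (k : ℤ) * t := mul_nonneg (Int.natCast_nonneg k) ht
  have htR : (0 : ℝ) ≤ t := by exact_mod_cast ht
  unfold RR
  simp only [Set.mem_ofPred_eq]
  rw [floor_shift hlam p.2 t]
  constructor
  · rintro ⟨g1, g2, g3, g4⟩
    refine ⟨by linarith, ?_⟩
    rw [← Int.le_floor]
    linarith
  · rintro ⟨g1, g2⟩
    rw [← Int.le_floor] at g2
    have h5 : L p.2 ≤ L (p.2 - k * t) := hL _ _ (by linarith) (by linarith) h2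
    have h6 : ⌊β + lam * p.2 - σ * t⌋ ≤ ⌊β + lam * p.2⌋ := Int.floor_mono (by
      have := mul_nonneg hσ htR
      linarith)
    refine ⟨by linarith, by linarith, by linarith, by linarith⟩

/-- the points of the region on a line are consecutive -/
theorem mem_between (hσ : 0 ≤ σ) (hlam : lam * k = σ - v)
    (hL : ∀ a b : ℤ, 0 ≤ a → a ≤ b → b ≤ H → L b ≤ L a) {p : ℤ × ℤ} (hp : p ∈ RR β lam L H) {t t' : ℤ}
    (ht' : 0 ≤ t') (htt : t' ≤ t) (h : ((p.1 + v * t, p.2 - k * t) : ℤ × ℤ) ∈ RR β lam L H) :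
    ((p.1 + v * t', p.2 - k * t') : ℤ × ℤ) ∈ RR β lam L H := by
  rw [mem_down hσ hlam hL hp (ht'.trans htt)] at h
  rw [mem_down hσ hlam hL hp ht']
  have htR : (t' : ℝ) ≤ t := by exact_mod_cast htt
  have h1 : (k : ℤ) * t' ≤ k * t := mul_le_mul_of_nonneg_left htt (Int.natCast_nonneg k)
  have h2 : σ * t' ≤ σ * t := mul_le_mul_of_nonneg_left htR hσ
  exact ⟨by linarith [h.1], by linarith [h.2]⟩

/-- the upper points of the pairs -/
noncomputable def Af (β lam : ℝ) (L : ℤ → ℤ) (H k : ℕ) (v : ℤ) (j : ℕ) : Finset (ℤ × ℤ) :=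
  (Finset.Icc (k * j) H).biUnion fun y =>
    (Finset.Ioc (⌊β + lam * (y : ℝ)⌋ - L y) (⌊β + lam * ((y : ℝ) - (k : ℝ) * j)⌋ - v * j)).image
      fun x => ((x, (y : ℤ)) : ℤ × ℤ)

theorem card_Af (j : ℕ) : (Af β lam L H k v j).card = Pc β lam L H k v j := by
  classical
  unfold Af Pc
  rw [card_biUnion]
  · refine sum_congr rfl fun y _ => ?_
    rw [card_image_of_injective _ (fun a b h => (Prod.mk.inj h).1), Int.card_Ioc]
    congr 1
    ring
  · intro a _ b _ hne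
    rw [Function.onFun, disjoint_left]
    intro p hp hp'
    rw [mem_image] at hp hp'
    obtain ⟨x, _, rfl⟩ := hp
    obtain ⟨x', _, h⟩ := hp'
    have := (Prod.mk.inj h).2
    exact hne (by exact_mod_cast this.symm)

theorem mem_Af (hσ : 0 ≤ σ) (hlam : lam * k = σ - v)
    (hL : ∀ a b : ℤ, 0 ≤ a → a ≤ b → b ≤ H → L b ≤ L a) {j : ℕ} {p : ℤ × ℤ} :
    p ∈ Af β lam L H k v j ↔ p ∈ RR β lam L H ∧ ((p.1 + v * j, p.2 - k * j) : ℤ × ℤ) ∈ RR β lam L H := by
  classical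
  unfold Af
  rw [mem_biUnion]
  constructor
  · rintro ⟨y, hy, hp⟩
    rw [Finset.mem_Icc] at hy
    rw [mem_image] at hp
    obtain ⟨x, hx, rfl⟩ := hp
    rw [Finset.mem_Ioc] at hx
    have e : (y : ℝ) - (k : ℝ) * j = (((y : ℤ) - k * (j : ℤ) : ℤ) : ℝ) := by push_cast; ring
    rw [e, floor_shift hlam] at hx
    have h6 : ⌊β + lam * ((y : ℤ) : ℝ) - σ * ((j : ℤ) : ℝ)⌋ ≤ ⌊β + lam * ((y : ℤ) : ℝ)⌋ := Int.floor_mono (by
      have : 0 ≤ σ * ((j : ℤ) : ℝ) := by positivity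
      linarith)
    have hm : ((x, (y : ℤ)) : ℤ × ℤ) ∈ RR β lam L H := by
      refine ⟨by simp, by simp only; exact_mod_cast hy.2, ?_, ?_⟩
      · simpa using hx.1
      · simp only
        have := hx.2
        linarith
    refine ⟨hm, ?_⟩
    rw [mem_down hσ hlam hL hm (Int.natCast_nonneg j)]
    refine ⟨by simp only; exact_mod_cast hy.1, ?_⟩
    rw [← Int.le_floor]
    simp only
    have := hx.2
    linarith
  · rintro ⟨hm, hm'⟩
    rw [mem_down hσ hlam hL hm (Int.natCast_nonneg j)] at hm'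
    obtain ⟨h1, h2, h3, h4⟩ := hm
    obtain ⟨x, y⟩ := p
    simp only at h1 h2 h3 h4 hm'
    obtain ⟨y, rfl⟩ := Int.eq_ofNat_of_zero_le h1
    refine ⟨y, ?_, ?_⟩
    · rw [Finset.mem_Icc]
      exact ⟨by exact_mod_cast hm'.1, by exact_mod_cast h2⟩
    · rw [mem_image]
      refine ⟨x, ?_, rfl⟩
      rw [Finset.mem_Ioc]
      have e : (y : ℝ) - (k : ℝ) * j = (((y : ℤ) - k * (j : ℤ) : ℤ) : ℝ) := by push_cast; ring
      rw [e, floor_shift hlam]
      have h5 := Int.le_floor.2 hm'.2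
      refine ⟨by simpa using h3, by linarith⟩

theorem Af_anti (hσ : 0 ≤ σ) (hlam : lam * k = σ - v)
    (hL : ∀ a b : ℤ, 0 ≤ a → a ≤ b → b ≤ H → L b ≤ L a) (j : ℕ) :
    Af β lam L H k v (j + 1) ⊆ Af β lam L H k v j := by
  intro p hp
  rw [mem_Af hσ hlam hL] at hp ⊢
  refine ⟨hp.1, mem_between hσ hlam hL hp.1 (t := ((j + 1 : ℕ) : ℤ)) (Int.natCast_nonneg j) ?_ hp.2⟩
  push_cast
  linarith

theorem card_Gf (hσ : 0 ≤ σ) (hlam : lam * k = σ - v)
    (hL : ∀ a b : ℤ, 0 ≤ a → a ≤ b → b ≤ H → L b ≤ L a) (j : ℕ) :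
    (((Af β lam L H k v j) \ (Af β lam L H k v (j + 1))).card : ℤ) =
      (Pc β lam L H k v j : ℤ) - Pc β lam L H k v (j + 1) := by
  have h1 := card_sdiff_add_card_eq_card (Af_anti (β := β) hσ hlam hL j)
  rw [card_Af, card_Af] at h1
  have h2 : ((((Af β lam L H k v j) \ (Af β lam L H k v (j + 1))).card + Pc β lam L H k v (j + 1) : ℕ) : ℤ) =
      (Pc β lam L H k v j : ℤ) := by exact_mod_cast h1
  push_cast at h2
  linarith

theorem Pc_anti (hσ : 0 ≤ σ) (hlam : lam * k = σ - v)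
    (hL : ∀ a b : ℤ, 0 ≤ a → a ≤ b → b ≤ H → L b ≤ L a) (j : ℕ) :
    Pc β lam L H k v (j + 1) ≤ Pc β lam L H k v j := by
  rw [← card_Af, ← card_Af]
  exact card_le_card (Af_anti hσ hlam hL j)

/-- **lower bound**: there are `Pc j - Pc (j + 1)` lines with more than `j` points -/
theorem low {u w : ℤ} (hdet : (k : ℤ) * u + v * w = 1) (hσ : 0 ≤ σ) (hlam : lam * k = σ - v)
    (hL : ∀ a b : ℤ, 0 ≤ a → a ≤ b → b ≤ H → L b ≤ L a) (j : ℕ) :
    ∃ B : Finset ℤ, (B.card : ℤ) = (Pc β lam L H k v j : ℤ) - Pc β lam L H k v (j + 1) ∧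
      ∀ c ∈ B, ∃ s0 : ℤ, ∀ s : ℤ, s0 ≤ s → s ≤ s0 + j →
        ((u * c - v * s, w * c + k * s) : ℤ × ℤ) ∈ RR β lam L H := by
  classical
  refine ⟨((Af β lam L H k v j) \ (Af β lam L H k v (j + 1))).image fun p => k * p.1 + v * p.2, ?_, ?_⟩
  · rw [card_image_of_injOn, card_Gf hσ hlam hL j]
    -- injectivity
    have key : ∀ p ∈ (Af β lam L H k v j) \ (Af β lam L H k v (j + 1)),
        ∀ p' ∈ (Af β lam L H k v j) \ (Af β lam L H k v (j + 1)),
        (k : ℤ) * p.1 + v * p.2 = k * p'.1 + v * p'.2 →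
        ¬ (u * p.2 - w * p.1 < u * p'.2 - w * p'.1) := by
      intro p hp p' hp' he hlt
      rw [mem_sdiff, mem_Af hσ hlam hL, mem_Af hσ hlam hL] at hp hp'
      obtain ⟨t, ht⟩ : ∃ t : ℤ, t = (u * p'.2 - w * p'.1) - (u * p.2 - w * p.1) := ⟨_, rfl⟩
      have e1 : p.1 = p'.1 + v * t := by
        rw [ht]
        linear_combination (u : ℤ) * he + (p'.1 - p.1) * hdet
      have e2 : p.2 = p'.2 - k * t := by
        rw [ht]
        linear_combination (w : ℤ) * he + (p'.2 - p.2) * hdet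
      apply hp'.2
      refine ⟨hp'.1.1, ?_⟩
      have h1 := hp.1.2
      have e3 : ((p.1 + v * (j : ℤ), p.2 - k * (j : ℤ)) : ℤ × ℤ) =
          (p'.1 + v * (t + j), p'.2 - k * (t + j)) := by
        ext
        · simp only; rw [e1]; ring
        · simp only; rw [e2]; ring
      rw [e3] at h1
      refine mem_between hσ hlam hL hp'.1.1 (t := t + j) (by positivity) ?_ h1
      push_cast
      linarith
    intro p hp p' hp' he
    simp only at he
    have h1 := key p (mem_coe.1 hp) p' (mem_coe.1 hp') he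
    have h2 := key p' (mem_coe.1 hp') p (mem_coe.1 hp) he.symm
    have h3 : u * p.2 - w * p.1 = u * p'.2 - w * p'.1 := le_antisymm (not_lt.1 h2) (not_lt.1 h1)
    ext
    · linear_combination (u : ℤ) * he - v * h3 + (p'.1 - p.1) * hdet
    · linear_combination (w : ℤ) * he + (k : ℤ) * h3 + (p'.2 - p.2) * hdet
  · intro c hc
    rw [mem_image] at hc
    obtain ⟨p, hp, rfl⟩ := hc
    rw [mem_sdiff, mem_Af hσ hlam hL] at hp
    refine ⟨u * p.2 - w * p.1 - j, fun s hs1 hs2 => ?_⟩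
    obtain ⟨t, ht⟩ : ∃ t : ℤ, t = u * p.2 - w * p.1 - s := ⟨_, rfl⟩
    have e : ((u * (k * p.1 + v * p.2) - v * s, w * (k * p.1 + v * p.2) + k * s) : ℤ × ℤ) =
        (p.1 + v * t, p.2 - k * t) := by
      ext
      · simp only; rw [ht]; linear_combination p.1 * hdet
      · simp only; rw [ht]; linear_combination p.2 * hdet
    rw [e]
    exact mem_between hσ hlam hL hp.1.1 (t := (j : ℤ)) (by linarith) (by linarith) hp.1.2

/-- **upper bound**: there are at most `Pc j - Pc (j + 1)` lines with more than `j` points -/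
theorem up {u w : ℤ} (hk : 0 < k) (hdet : (k : ℤ) * u + v * w = 1) (hσ : 0 ≤ σ) (hlam : lam * k = σ - v)
    (hL : ∀ a b : ℤ, 0 ≤ a → a ≤ b → b ≤ H → L b ≤ L a) (j : ℕ) (B : Finset ℤ)
    (hB : ∀ c ∈ B, ∃ C : Finset ℤ, j < C.card ∧ ∀ s ∈ C,
      ((u * c - v * s, w * c + k * s) : ℤ × ℤ) ∈ RR β lam L H) :
    (B.card : ℤ) ≤ (Pc β lam L H k v j : ℤ) - Pc β lam L H k v (j + 1) := by
  classical
  rw [← card_Gf hσ hlam hL j]
  have hsub : B ⊆ ((Af β lam L H k v j) \ (Af β lam L H k v (j + 1))).image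
      fun p => k * p.1 + v * p.2 := by
    intro c hc
    obtain ⟨C, hC1, hC2⟩ := hB c hc
    have hne : C.Nonempty := card_pos.1 (by omega)
    have hmax := hC2 _ (C.max'_mem hne)
    have hmin := hC2 _ (C.min'_mem hne)
    have hlen : (j : ℤ) ≤ C.max' hne - C.min' hne := by
      have h2 : C ⊆ Finset.Icc (C.min' hne) (C.max' hne) := by
        intro b hb
        rw [Finset.mem_Icc]
        exact ⟨C.min'_le b hb, C.le_max' b hb⟩
      have h3 := card_le_card h2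
      rw [Int.card_Icc] at h3
      omega
    obtain ⟨z, hz⟩ : ∃ z : ℤ × ℤ, z = (u * c - v * C.max' hne, w * c + k * C.max' hne) := ⟨_, rfl⟩
    rw [← hz] at hmax
    have hz1 : z.1 = u * c - v * C.max' hne := by rw [hz]
    have hz2 : z.2 = w * c + k * C.max' hne := by rw [hz]
    have hmin' : ((z.1 + v * (C.max' hne - C.min' hne), z.2 - k * (C.max' hne - C.min' hne)) : ℤ × ℤ) ∈
        RR β lam L H := by
      have e : ((z.1 + v * (C.max' hne - C.min' hne), z.2 - k * (C.max' hne - C.min' hne)) : ℤ × ℤ) =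
          (u * c - v * C.min' hne, w * c + k * C.min' hne) := by
        ext
        · simp only; rw [hz1]; ring
        · simp only; rw [hz2]; ring
      rw [e]
      exact hmin
    have hz0 : 0 ≤ z.2 := hmax.1
    -- the largest shift
    obtain ⟨T, hT1, hT2⟩ : ∃ T : ℕ, ((z.1 + v * (T : ℤ), z.2 - k * (T : ℤ)) : ℤ × ℤ) ∈ RR β lam L H ∧
        ∀ t : ℕ, ((z.1 + v * (t : ℤ), z.2 - k * (t : ℤ)) : ℤ × ℤ) ∈ RR β lam L H → t ≤ T := by
      let Q : ℕ → Prop := fun t => ((z.1 + v * (t : ℤ), z.2 - k * (t : ℤ)) : ℤ × ℤ) ∈ RR β lam L H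
      have hbd : ∀ t : ℕ, Q t → t ≤ z.2.toNat := by
        intro t ht
        have h5 : 0 ≤ z.2 - k * (t : ℤ) := ht.1
        have h6 : (t : ℤ) ≤ k * t := by
          have : (1 : ℤ) ≤ k := by exact_mod_cast hk
          nlinarith [Int.natCast_nonneg t]
        omega
      have hQ0 : Q 0 := by
        show ((z.1 + v * ((0 : ℕ) : ℤ), z.2 - k * ((0 : ℕ) : ℤ)) : ℤ × ℤ) ∈ RR β lam L H
        simpa using hmax
      refine ⟨Nat.findGreatest Q z.2.toNat, Nat.findGreatest_spec (m := 0) (Nat.zero_le _) hQ0, ?_⟩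
      intro t ht
      exact Nat.le_findGreatest (hbd t ht) ht
    have hjT : j ≤ T := by
      have h7 := hT2 (C.max' hne - C.min' hne).toNat (by
        rw [Int.toNat_of_nonneg (by omega)]
        exact hmin')
      omega
    rw [mem_image]
    refine ⟨(z.1 + v * ((T - j : ℕ) : ℤ), z.2 - k * ((T - j : ℕ) : ℤ)), ?_, ?_⟩
    · rw [mem_sdiff, mem_Af hσ hlam hL, mem_Af hσ hlam hL]
      have hzT : ((z.1 + v * ((T - j : ℕ) : ℤ), z.2 - k * ((T - j : ℕ) : ℤ)) : ℤ × ℤ) ∈ RR β lam L H :=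
        mem_between hσ hlam hL hmax (t := (T : ℤ)) (by positivity) (by omega) hT1
      refine ⟨⟨hzT, ?_⟩, ?_⟩
      · have e : ((z.1 + v * ((T - j : ℕ) : ℤ) + v * (j : ℤ), z.2 - k * ((T - j : ℕ) : ℤ) - k * (j : ℤ)) : ℤ × ℤ) =
            (z.1 + v * (T : ℤ), z.2 - k * (T : ℤ)) := by
          rw [Nat.cast_sub hjT]
          ext <;> simp only <;> ring
        simp only
        rw [e]
        exact hT1
      · rintro ⟨-, h8⟩
        have e : ((z.1 + v * ((T - j : ℕ) : ℤ) + v * ((j + 1 : ℕ) : ℤ),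
            z.2 - k * ((T - j : ℕ) : ℤ) - k * ((j + 1 : ℕ) : ℤ)) : ℤ × ℤ) =
            (z.1 + v * ((T + 1 : ℕ) : ℤ), z.2 - k * ((T + 1 : ℕ) : ℤ)) := by
          rw [Nat.cast_sub hjT]
          ext <;> simp only <;> push_cast <;> ring
        simp only at h8
        rw [e] at h8
        have := hT2 (T + 1) h8
        omega
    · simp only
      rw [hz1, hz2]
      linear_combination c * hdet
  exact (card_le_card hsub).trans card_image_le |> fun h => by exact_mod_cast h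

/-- a longer last row changes only `Pc 0` -/
theorem Pc_update {L' : ℤ → ℤ} (hσ1 : 1 ≤ σ) (hlam : lam * k = σ - v)
    (h0 : L H = 0) (h1 : L' H = 1) (he : ∀ y : ℤ, 0 ≤ y → y < H → L' y = L y) (j : ℕ) :
    Pc β lam L' H k v j = Pc β lam L H k v j + if j = 0 then 1 else 0 := by
  unfold Pc
  rcases Nat.eq_zero_or_pos j with rfl | hj
  · rw [Nat.mul_zero, ← Nat.range_succ_eq_Icc_zero, sum_range_succ, sum_range_succ]
    have h2 : ∑ y ∈ range H, (L' y - (⌊β + lam * (y : ℝ)⌋ - ⌊β + lam * ((y : ℝ) - (k : ℝ) * (0 : ℕ))⌋) -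
        v * (0 : ℕ)).toNat = ∑ y ∈ range H, (L y - (⌊β + lam * (y : ℝ)⌋ -
        ⌊β + lam * ((y : ℝ) - (k : ℝ) * (0 : ℕ))⌋) - v * (0 : ℕ)).toNat := by
      refine sum_congr rfl fun y hy => ?_
      rw [Finset.mem_range] at hy
      rw [he y (by positivity) (by exact_mod_cast hy)]
    rw [h2, h0, h1]
    simp
  · rw [if_neg (by omega), add_zero]
    refine sum_congr rfl fun y hy => ?_
    rw [Finset.mem_Icc] at hy
    rcases Nat.lt_or_ge y H with h | h
    · rw [he y (by positivity) (by exact_mod_cast h)]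
    · have : y = H := le_antisymm hy.2 h
      subst this
      rw [h0, h1]
      have e : (y : ℝ) - (k : ℝ) * j = (((y : ℤ) - k * (j : ℤ) : ℤ) : ℝ) := by push_cast; ring
      rw [e, floor_shift hlam]
      have h6 : ⌊β + lam * ((y : ℤ) : ℝ) - σ * ((j : ℤ) : ℝ)⌋ ≤ ⌊β + lam * ((y : ℤ) : ℝ) - 1⌋ :=
        Int.floor_mono (by
          have hjR : (1 : ℝ) ≤ ((j : ℤ) : ℝ) := by exact_mod_cast hj
          nlinarith)
      rw [Int.floor_sub_one] at h6
      have h7 : ((y : ℤ) : ℝ) = (y : ℝ) := by push_cast; rfl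
      rw [h7] at h6 ⊢
      omega

/-- one absorbed point of multiplicity `E` -/
def L1 (d E : ℕ) (y : ℤ) : ℤ := 3 * ((d : ℤ) - 3 * y) - max ((E : ℤ) - y) 0

/-- the same with the apex -/
def L1a (d E : ℕ) (y : ℤ) : ℤ := L1 d E y + if 3 * y = (d : ℤ) then 1 else 0

theorem L1_anti {d E : ℕ} {a b : ℤ} (hab : a ≤ b) : L1 d E b ≤ L1 d E a := by
  unfold L1
  rcases le_total ((E : ℤ) - a) 0 with h1 | h1 <;> rcases le_total ((E : ℤ) - b) 0 with h2 | h2 <;>
    simp only [max_eq_left, max_eq_right, h1, h2] <;> omega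

theorem L1a_anti {d E : ℕ} {a b : ℤ} (hab : a ≤ b) (_hb : 3 * b ≤ d) : L1a d E b ≤ L1a d E a := by
  unfold L1a L1
  rcases le_total ((E : ℤ) - a) 0 with h1 | h1 <;> rcases le_total ((E : ℤ) - b) 0 with h2 | h2 <;>
    simp only [max_eq_left, max_eq_right, h1, h2] <;> split_ifs <;> omega

theorem Pc_apex {d E : ℕ} (hE : 3 * E ≤ d) (hσ1 : 1 ≤ σ) (hlam : lam * k = σ - v) (j : ℕ) :
    Pc β lam (L1a d E) (d / 3) k v j =
      Pc β lam (L1 d E) (d / 3) k v j + if j = 0 ∧ 3 ∣ d then 1 else 0 := by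
  by_cases h3 : 3 ∣ d
  · obtain ⟨q, rfl⟩ := h3
    have hq : 3 * q / 3 = q := by omega
    rw [hq, Pc_update (L' := L1a (3 * q) E) (L := L1 (3 * q) E) hσ1 hlam ?_ ?_ ?_ j]
    · simp
    · unfold L1
      rw [max_eq_right (by omega)]
      push_cast
      ring
    · unfold L1a L1
      rw [max_eq_right (by omega), if_pos (by push_cast; ring)]
      push_cast
      ring
    · intro y _ hy
      unfold L1a
      rw [if_neg (by push_cast; omega), add_zero]
  · rw [if_neg (fun h => h3 h.2), add_zero]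
    unfold Pc
    refine sum_congr rfl fun y _ => ?_
    have : L1a d E y = L1 d E y := by
      unfold L1a
      rw [if_neg (by omega), add_zero]
    rw [this]

/-- the upper bound with the apex included -/
theorem upA {u w : ℤ} {d E : ℕ} (hE : 3 * E ≤ d) (hk : 0 < k) (hdet : (k : ℤ) * u + v * w = 1)
    (hσ1 : 1 ≤ σ) (hlam : lam * k = σ - v) (j : ℕ) (B : Finset ℤ)
    (hB : ∀ c ∈ B, ∃ C : Finset ℤ, j < C.card ∧ ∀ s ∈ C,
      ((u * c - v * s, w * c + k * s) : ℤ × ℤ) ∈ RR β lam (L1a d E) (d / 3)) :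
    (B.card : ℤ) ≤ (Pc β lam (L1 d E) (d / 3) k v j : ℤ) - Pc β lam (L1 d E) (d / 3) k v (j + 1) +
      if j = 0 ∧ 3 ∣ d then 1 else 0 := by
  have h := up (β := β) hk hdet (by linarith) hlam (L := L1a d E) (H := d / 3)
    (fun a b _ hab hb => L1a_anti hab (by omega)) j B hB
  rw [Pc_apex hE hσ1 hlam j, Pc_apex hE hσ1 hlam (j + 1)] at h
  push_cast at h ⊢
  rw [if_neg (fun h : False ∧ 3 ∣ d => h.1)] at h
  split_ifs at h ⊢ <;> linarith

/-- the lower bound without the apex -/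
theorem lowA {u w : ℤ} {d E : ℕ} (hdet : (k : ℤ) * u + v * w = 1)
    (hσ : 0 ≤ σ) (hlam : lam * k = σ - v) (j : ℕ) :
    ∃ B : Finset ℤ, (B.card : ℤ) = (Pc β lam (L1 d E) (d / 3) k v j : ℤ) -
        Pc β lam (L1 d E) (d / 3) k v (j + 1) ∧
      ∀ c ∈ B, ∃ s0 : ℤ, ∀ s : ℤ, s0 ≤ s → s ≤ s0 + j →
        ((u * c - v * s, w * c + k * s) : ℤ × ℤ) ∈ RR β lam (L1 d E) (d / 3) :=
  low hdet hσ hlam (fun _ _ _ hab _ => L1_anti hab) j

end

end Pool.Agent.TH105.N13
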