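import Pool.Agent.H15.G.R_seed8.TH105.N13.Geo
import Pool.Agent.H15.G.R_seed8.TH663.N13.Row

/-! The numerical assembly: the two systems with one big point, in the critical degrees. -/

set_option autoImplicit false

namespace Pool.Agent.TH105.N13

open Finset Pool.Agent.TH176.Nag Pool.Agent.TH603.Sur Pool.Agent.TH603.Cut Pool.Agent.TH663.N13

theorem FF_id {x κ e : ℝ} {k d E j m : ℕ} (hE : (E : ℝ) = k * m + k / 2 - 1 + e) :
    FF (3 * x + κ - 9 * k) k d E j = (x * (d + 3 / 2) - x ^ 2 * (m + 1 / 2)) + (1 / 2 - e) * k +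
      (x ^ 2 - k ^ 2) * (m - j) +
      (κ * (d / 3 + 1 / 2 - x / 3 - κ / 18) - κ * (2 * x / 3 + κ / 9) * j) := by
  unfold FF
  rw [hE]
  ring

theorem pert {x κ d m j : ℝ} (hx : 0 ≤ x) (hκ : 0 < κ) (hd : 0 ≤ d) (hj : 0 ≤ j) (hjm : j ≤ m)
    (hQ : κ * (d + (x + 1) * (m + 1) + 2) ≤ 1) :
    |κ * (d / 3 + 1 / 2 - x / 3 - κ / 18) - κ * (2 * x / 3 + κ / 9) * j| ≤ 1 := by
  have hm : 0 ≤ m := hj.trans hjm
  have hxm : 0 ≤ (x + 1) * (m + 1) := by positivity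
  have h1 : κ * 2 ≤ 1 := by
    refine le_trans (mul_le_mul_of_nonneg_left ?_ hκ.le) hQ
    linarith
  rw [abs_le]
  constructor
  · have h2 : x / 3 + κ / 18 + (2 * x / 3 + κ / 9) * j ≤ (x + 1) * (m + 1) := by
      have h3 : (2 * x / 3 + κ / 9) * j ≤ (2 * x / 3 + 1 / 9) * m := by
        refine mul_le_mul ?_ hjm hj (by positivity)
        linarith
      nlinarith
    have h4 : κ * (x / 3 + κ / 18 + (2 * x / 3 + κ / 9) * j) ≤ 1 := by
      refine le_trans (mul_le_mul_of_nonneg_left ?_ hκ.le) hQ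
      linarith
    have h5 : 0 ≤ κ * (d / 3 + 1 / 2) := by positivity
    nlinarith
  · have h2 : 0 ≤ κ * (2 * x / 3 + κ / 9) * j := by positivity
    have h4 : κ * (d / 3 + 1 / 2 - x / 3 - κ / 18) ≤ 1 := by
      refine le_trans (mul_le_mul_of_nonneg_left ?_ hκ.le) hQ
      linarith
    linarith

/-- the setting of the critical degrees -/
structure Set0 (n k m d : ℕ) (x κ : ℝ) : Prop where
  hx : x = √(n : ℝ)
  hk : 32 ≤ k
  hx1 : 3.16 * (k : ℝ) ≤ x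
  hx2 : x ≤ 6.33 * k
  hκ : 0 < κ
  hQ : κ * (d + (x + 1) * (m + 1) + 2) ≤ 1
  hd : |2 * (d : ℝ) + 3 - x * (2 * m + 1)| < 1 / 26

theorem Set0.sq {n k m d : ℕ} {x κ : ℝ} (h : Set0 n k m d x κ) : x ^ 2 = n := by
  rw [h.hx]
  exact Real.sq_sqrt (Nat.cast_nonneg n)

theorem Set0.facts {n k m d : ℕ} {x κ : ℝ} (h : Set0 n k m d x κ) :
    (32 : ℝ) ≤ k ∧ κ ≤ 1 / 2 ∧ κ * m ≤ 1 ∧ |x * (d + 3 / 2) - x ^ 2 * (m + 1 / 2)| ≤ (k : ℝ) / 8 ∧
      3 * (d : ℝ) ≤ 3 * x * m + 3 * x / 2 - 4 ∧ 3 * x * m + 3 * x / 2 - 5 ≤ 3 * (d : ℝ) := by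
  have hk : (32 : ℝ) ≤ k := by exact_mod_cast h.hk
  have hx0 : 0 ≤ x := by linarith [h.hx1]
  have hm0 : (0 : ℝ) ≤ m := Nat.cast_nonneg m
  have hd0 : (0 : ℝ) ≤ d := Nat.cast_nonneg d
  have hxm : (m : ℝ) ≤ (x + 1) * (m + 1) := by nlinarith
  have h1 := abs_lt.1 h.hd
  refine ⟨hk, ?_, ?_, ?_, by nlinarith, by nlinarith⟩
  · have : κ * 2 ≤ 1 := le_trans (mul_le_mul_of_nonneg_left (by linarith) h.hκ.le) h.hQ
    linarith
  · exact le_trans (mul_le_mul_of_nonneg_left (by linarith) h.hκ.le) h.hQ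
  · have e : x * (d + 3 / 2) - x ^ 2 * (m + 1 / 2) = x / 2 * (2 * (d : ℝ) + 3 - x * (2 * m + 1)) := by ring
    rw [e, abs_mul, abs_of_nonneg (by linarith : 0 ≤ x / 2)]
    have h2 := h.hd.le
    have h3 := h.hx2
    nlinarith [abs_nonneg (2 * (d : ℝ) + 3 - x * (2 * m + 1))]

theorem row_num {n k m d E j : ℕ} {x κ e β lam : ℝ} {v : ℤ} (h : Set0 n k m d x κ) (hj : j < m)
    (hE : (E : ℝ) = k * m + k / 2 - 1 + e) (he0 : 0 ≤ e) (he1 : e ≤ 1)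
    (hlam : lam * k = 3 * x + κ - 9 * k - v)
    (hnoise : ∀ (β : ℝ) (K : ℕ), K ≤ 3 * k →
      |∑ i ∈ range K, (Int.fract (β + lam * i) - 1 / 2)| ≤ 1 / 32 * k) :
    |(Pc β lam (L1 d E) (d / 3) k v j : ℝ) - Pc β lam (L1 d E) (d / 3) k v (j + 1)
      - ((n : ℝ) - k ^ 2) * (m - j) - (1 / 2 - e) * k| ≤ (k : ℝ) / 4 + 17 / 8 := by
  obtain ⟨hk, hκ2, hκm, hX, hd1, hd2⟩ := h.facts
  have hx1 := h.hx1
  have hx2 := h.hx2
  have hκ := h.hκ
  have hj0 : (0 : ℝ) ≤ j := Nat.cast_nonneg j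
  have hm0 : (0 : ℝ) ≤ m := Nat.cast_nonneg m
  have hjm : (j : ℝ) + 1 ≤ m := by exact_mod_cast hj
  have hx0 : 0 ≤ x := by linarith
  have h1 := rs (beta := β) (d := d) (E := E) (j := j) (N0 := 3 * k) (η := 1 / 32 * k) hlam
    (by linarith) (by
      have h2 : (k : ℝ) * (j + 1) ≤ E := by
        rw [hE]
        have : (k : ℝ) * (j + 1) ≤ k * m := mul_le_mul_of_nonneg_left hjm (by linarith)
        linarith
      exact_mod_cast h2) (by
      rw [hE]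
      have h2 : (3 * x + κ - 9 * k) * ((j : ℝ) + 1) ≤ (3 * x + κ - 9 * k) * m :=
        mul_le_mul_of_nonneg_left hjm (by linarith)
      nlinarith) (by omega) (by push_cast; linarith) hnoise
  rw [FF_id hE, h.sq] at h1
  have h2 := pert (d := (d : ℝ)) (m := m) (j := j) hx0 hκ (Nat.cast_nonneg d) hj0 (by linarith) h.hQ
  rw [h.sq] at hX
  rw [abs_le] at h1 h2 hX ⊢
  constructor <;> linarith [h1.1, h1.2, h2.1, h2.2, hX.1, hX.2]

theorem Set0.more {n k m d : ℕ} {x κ : ℝ} (h : Set0 n k m d x κ) (hm : (n : ℝ) - 6 * x + 10 ≤ m) :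
    3 * (d : ℝ) ≤ (9 * k + (3 * x + κ - 9 * k)) * m + 3 * x / 2 ∧
    (3 * x / 2 / 9 + 1) * (3 * x / 2 + 1) + 1 ≤ m ∧
    3 * (d : ℝ) ≤ (9 * k + (3 * x + κ - 9 * k)) * ((m : ℝ) + 1) ∧
    3 * ((k : ℝ) * m + k / 2) ≤ d ∧ 1 ≤ (n : ℝ) - k ^ 2 := by
  obtain ⟨hk, hκ2, hκm, hX, hd1, hd2⟩ := h.facts
  have hx1 := h.hx1
  have hκ := h.hκ
  have hsq := h.sq
  have hm0 : (0 : ℝ) ≤ m := Nat.cast_nonneg m
  have hx75 : 75 ≤ x := by linarith
  have hκm0 : 0 ≤ κ * m := by positivity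
  have e : (9 * (k : ℝ) + (3 * x + κ - 9 * k)) = 3 * x + κ := by ring
  rw [e]
  refine ⟨by linarith, ?_, by linarith, ?_, ?_⟩
  · rw [← hsq] at hm
    nlinarith
  · have hxk : 9.48 * (k : ℝ) * m ≤ 3 * x * m := mul_le_mul_of_nonneg_right (by linarith) hm0
    have hkm : 0 ≤ (k : ℝ) * m := by positivity
    linarith
  · rw [← hsq]
    nlinarith

theorem F_sides {n k k' m d r : ℕ} {x κ lam : ℝ} {v u w : ℤ} (h : Set0 n k m d x κ)
    (hk' : k = 2 * k') (hn : n = k ^ 2 + r) (hdet : (k : ℤ) * u + v * w = 1)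
    (hirr : Irrational (3 * x + κ)) (hlam : lam * k = 3 * x + κ - 9 * k - v) (hl0 : 0 < lam)
    (hl1 : lam < 1)
    (hnoise : ∀ (β : ℝ) (K : ℕ), K ≤ 3 * k →
      |∑ i ∈ range K, (Int.fract (β + lam * i) - 1 / 2)| ≤ 1 / 32 * k)
    (hm : (n : ℝ) - 6 * x + 10 ≤ m) :
    Sur (fun o : Option (Fin r) => o.elim (k * m + k' - 1) (fun _ => m)) (TZ d) ∧
    Emp (fun o : Option (Fin r) => o.elim (k * m + k') (fun _ => m)) (TZ d) := by
  obtain ⟨hk, hκ2, hκm, hX, hd1, hd2⟩ := h.facts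
  have hx1 := h.hx1
  have hx2 := h.hx2
  have hκ := h.hκ
  have hsq := h.sq
  have hm0 : (0 : ℝ) ≤ m := Nat.cast_nonneg m
  have hx0 : 0 ≤ x := by linarith
  have hx75 : 75 ≤ x := by linarith
  have hk0 : 0 < k := by have := h.hk; omega
  have hkR : (0 : ℝ) < k := by linarith
  have hk'R : (k : ℝ) = 2 * k' := by exact_mod_cast hk'
  have hk'1 : 1 ≤ k' := by omega
  have hrR : (r : ℝ) = n - k ^ 2 := by
    have : (n : ℝ) = k ^ 2 + r := by exact_mod_cast hn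
    linarith
  obtain ⟨hM1, hM2, hM3, hM4, hM5⟩ := h.more hm
  -- the parameter
  obtain ⟨τ, hτ⟩ : ∃ τ : ℝ, τ = lam / 3 := ⟨_, rfl⟩
  have hτ0 : 0 < τ := by rw [hτ]; linarith
  have hτ1 : τ < 1 := by rw [hτ]; linarith
  have hlt : (((6 : ℤ) : ℝ) - 3 * (2 - τ)) = lam := by rw [hτ]; push_cast; ring
  have hτirr : Irrational τ := by
    have e : τ = (3 * x + κ - ((9 * k + v : ℤ) : ℝ)) / ((3 * k : ℤ) : ℝ) := by
      rw [hτ]
      push_cast
      rw [div_eq_div_iff (by norm_num) (by positivity)]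
      linear_combination 3 * hlam
    rw [e]
    exact (hirr.sub_intCast _).div_intCast (by positivity)
  have hl : (((6 : ℤ) : ℝ) - 3 * (2 - τ)) * k = (3 * x + κ - 9 * k) - v := by rw [hlt, hlam]
  have hσ1 : 1 ≤ 3 * x + κ - 9 * k := by linarith
  have hnoise' : ∀ (β : ℝ) (K : ℕ), K ≤ 3 * k →
      |∑ i ∈ range K, (Int.fract (β + (((6 : ℤ) : ℝ) - 3 * (2 - τ)) * i) - 1 / 2)| ≤ 1 / 32 * k := by
    rw [hlt]; exact hnoise
  constructor
  · have hE : ((k * m + k' - 1 : ℕ) : ℝ) = k * m + k / 2 - 1 + 0 := by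
      rw [Nat.cast_sub (by omega)]
      push_cast
      linarith
    refine geo_S hdet hτ0 hτ1 hτirr (by linarith : (0 : ℝ) ≤ 3 * x + κ - 9 * k) hl ?_ ?_
    · have h3 : 3 * ((k * m + k' - 1 : ℕ) : ℝ) ≤ d := by
        rw [hE]
        linarith
      exact_mod_cast h3
    · intro j hj
      have h1 := (abs_le.1 (row_num (β := (2 - τ) * d) h hj hE le_rfl (by norm_num) hl hnoise')).1
      have h2 : (((r : ℤ) * ((m : ℤ) - j) : ℤ) : ℝ) ≤
          (((Pc ((2 - τ) * d) (((6 : ℤ) : ℝ) - 3 * (2 - τ)) (L1 d (k * m + k' - 1)) (d / 3) k v j : ℤ) -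
          Pc ((2 - τ) * d) (((6 : ℤ) : ℝ) - 3 * (2 - τ)) (L1 d (k * m + k' - 1)) (d / 3) k v (j + 1) : ℤ) : ℝ) := by
        push_cast at h1 ⊢
        rw [hrR]
        linarith
      exact_mod_cast h2
  · have hE : ((k * m + k' : ℕ) : ℝ) = k * m + k / 2 - 1 + 1 := by
      push_cast
      linarith
    refine geo_E (s := 1) hk0 hdet hτ0 hτ1 hτirr hσ1 hl ?_ le_rfl ?_ ?_ ?_ ?_
    · have h3 : 3 * ((k * m + k' : ℕ) : ℝ) ≤ d := by
        rw [hE]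
        linarith
      exact_mod_cast h3
    · have h3 : (1 : ℝ) ≤ r := by
        rw [hrR]
        exact hM5
      exact_mod_cast h3
    · intro j hj
      have h1 := (abs_le.1 (row_num (β := (2 - τ) * d) h hj hE (by norm_num) le_rfl hl hnoise')).2
      rw [hrR]
      push_cast at h1 ⊢
      linarith
    · have h1 := tip (beta := (2 - τ) * d) (E := k * m + k') (j := m) (X := 3 * x / 2) (by linarith) hl
        (d := d) hM1
      push_cast at h1 ⊢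
      linarith
    · refine tip_zero hl ?_
      push_cast
      exact hM3

/-- the choice of the power of two -/
theorem exists_pow (A n : ℕ) (hn : 40 * A ^ 2 ≤ n) (hn0 : 10 ≤ n) :
    ∃ a : ℕ, A < 2 ^ a ∧ 10 * (2 ^ a) ^ 2 ≤ n ∧ n < 40 * (2 ^ a) ^ 2 := by
  refine ⟨Nat.log 4 (n / 10), ?_⟩
  have h1 : 4 ^ Nat.log 4 (n / 10) ≤ n / 10 := Nat.pow_log_le_self 4 (by omega)
  have h2 : n / 10 < 4 ^ (Nat.log 4 (n / 10) + 1) := Nat.lt_pow_succ_log_self (by norm_num) _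
  have e : (2 ^ Nat.log 4 (n / 10)) ^ 2 = 4 ^ Nat.log 4 (n / 10) := by
    rw [← pow_mul, mul_comm, pow_mul]
    norm_num
  rw [pow_succ] at h2
  rw [e]
  refine ⟨?_, by omega, by omega⟩
  have h3 : 40 * A ^ 2 < 40 * 4 ^ Nat.log 4 (n / 10) := by omega
  rw [← e] at h3
  exact lt_of_pow_lt_pow_left₀ 2 (by positivity) (by omega)

/-- **the two systems with one big point, in the critical degrees** -/
theorem F12 : ∃ N1 : ℕ, ∀ n : ℕ, N1 ≤ n → ∃ k k' r : ℕ, 32 ≤ k ∧ k = 2 * k' ∧ n = k ^ 2 + r ∧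
    ∀ m : ℕ, (n : ℝ) - 6 * √(n : ℝ) + 10 ≤ m → 3 * k ≤ 2 * m ∧
      ∀ d : ℕ, |2 * (d : ℝ) + 3 - √(n : ℝ) * (2 * m + 1)| < 1 / 26 →
        Sur (fun o : Option (Fin r) => o.elim (k * m + k' - 1) (fun _ => m)) (TZ d) ∧
        Emp (fun o : Option (Fin r) => o.elim (k * m + k') (fun _ => m)) (TZ d) := by
  obtain ⟨k0, hk00, hk0⟩ := exists_v (1 / 32) (by norm_num)
  refine ⟨40 * (k0 + 32) ^ 2, fun n hn => ?_⟩
  obtain ⟨a, ha1, ha2, ha3⟩ := exists_pow (k0 + 32) n hn (by nlinarith)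
  obtain ⟨k, hk⟩ : ∃ k : ℕ, k = 2 ^ a := ⟨_, rfl⟩
  rw [← hk] at ha1 ha2 ha3
  have ha : a ≠ 0 := by
    rintro rfl
    rw [pow_zero] at hk
    omega
  obtain ⟨b, rfl⟩ := Nat.exists_eq_succ_of_ne_zero ha
  obtain ⟨r, hr⟩ := Nat.exists_eq_add_of_le (show k ^ 2 ≤ n by nlinarith)
  refine ⟨k, 2 ^ b, r, by omega, by rw [hk, pow_succ]; ring, hr, fun m hm => ?_⟩
  obtain ⟨x, hx⟩ : ∃ x : ℝ, x = √(n : ℝ) := ⟨_, rfl⟩
  have hx0 : 0 ≤ x := by rw [hx]; exact Real.sqrt_nonneg _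
  have hxsq : x ^ 2 = n := by rw [hx]; exact Real.sq_sqrt (Nat.cast_nonneg n)
  have hkR : (32 : ℝ) ≤ k := by exact_mod_cast (by omega : 32 ≤ k)
  have hx1 : 3.16 * (k : ℝ) ≤ x := by
    have h1 : (10 : ℝ) * k ^ 2 ≤ n := by exact_mod_cast ha2
    rw [← hxsq] at h1
    refine le_of_sq_le_sq ?_ hx0
    nlinarith
  have hx2 : x ≤ 6.33 * k := by
    have h1 : (n : ℝ) < 40 * k ^ 2 := by exact_mod_cast ha3
    rw [← hxsq] at h1
    refine le_of_sq_le_sq ?_ (by positivity)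
    nlinarith
  rw [← hx] at hm ⊢
  refine ⟨?_, fun d hd => ?_⟩
  · have h1 : 3 * (k : ℝ) ≤ 2 * m := by
      rw [← hxsq] at hm
      nlinarith
    exact_mod_cast h1
  have hQ0 : 0 < (d : ℝ) + (x + 1) * (m + 1) + 2 := by positivity
  obtain ⟨y, hyirr, hy1, hy2⟩ := exists_irrational_btwn
    (show 3 * x < 3 * x + 1 / ((d : ℝ) + (x + 1) * (m + 1) + 2) by
      have := one_div_pos.2 hQ0
      linarith)
  have hS : Set0 n k m d x (y - 3 * x) := by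
    refine ⟨hx, by omega, hx1, hx2, by linarith, ?_, hd⟩
    have h1 : (y - 3 * x) * ((d : ℝ) + (x + 1) * (m + 1) + 2) ≤
        1 / ((d : ℝ) + (x + 1) * (m + 1) + 2) * ((d : ℝ) + (x + 1) * (m + 1) + 2) :=
      mul_le_mul_of_nonneg_right (by linarith) hQ0.le
    rwa [one_div, inv_mul_cancel₀ hQ0.ne'] at h1
  obtain ⟨v, hv, hv1, hv2, hv3⟩ := hk0 k (by omega) (3 * x + (y - 3 * x) - 9 * k) 0
  have hcop : IsCoprime (k : ℤ) v := by
    rw [hk]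
    push_cast
    refine IsCoprime.pow_left ?_
    obtain ⟨q, hq⟩ := hv
    exact ⟨-q, 1, by rw [hq]; ring⟩
  obtain ⟨u, w, huw⟩ := hcop
  have hk0' : (k : ℝ) ≠ 0 := by positivity
  refine F_sides (v := v) (u := u) (w := w) (lam := (3 * x + (y - 3 * x) - 9 * k - v) / k) hS
    (by rw [hk, pow_succ]; ring) hr (by linear_combination huw) ?_ ?_ ?_ ?_ ?_ (by rw [hx] at hm ⊢; exact hm)
  · rw [add_sub_cancel]
    exact hyirr
  · rw [div_mul_cancel₀ _ hk0']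
  · simpa using hv1
  · simpa using hv2
  · intro β K hK
    exact hv3 β K hK

end Pool.Agent.TH105.N13
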